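import Pool.Agent.Helper10.TR.Defs2
import Pool.Agent.Helper10.TR.RedImp
import Pool.Agent.Helper10.TR.ResE
import Pool.Agent.Helper98.OS.JB

/-!
# TR, block R: no critical residue at a point whose residue is fixed by Frobenius
-/

set_option autoImplicit false

namespace Pool.Agent.Helper86.TR

open MvPolynomial Pool.Agent.Helper61.TH Pool.Agent.Helper87.FK Pool.Agent.Helper26.OB Pool.Agent.Helper10.TR

noncomputable section

/-- congruences of powers, in the residue field -/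
theorem rd_pow_eq {p : ℕ} [Fact p.Prime] (τ : ℂ →+* PadicAlgCl p) {a b : ℂ} (ha : ‖τ a‖ ≤ 1) (hb : ‖τ b‖ ≤ 1) {N : ℕ}
    (h : ‖(τ a) ^ N - τ b‖ < 1) : (rd τ a) ^ N = rd τ b := by
  have h1 : rd τ a = rh τ ⟨a, (mem_Ot τ).2 ha⟩ := rd_coe τ ⟨a, (mem_Ot τ).2 ha⟩
  have h2 : rd τ b = rh τ ⟨b, (mem_Ot τ).2 hb⟩ := rd_coe τ ⟨b, (mem_Ot τ).2 hb⟩
  rw [h1, h2, ← map_pow, ← sub_eq_zero, ← map_sub, rh_eq_zero]
  change ‖τ (a ^ N - b)‖ < 1
  rw [map_sub, map_pow]
  exact h

/-- the conjugate polynomial at a point fixed by Frobenius -/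
theorem rd_conj {m p : ℕ} [hp : Fact p.Prime] (τ : ℂ →+* PadicAlgCl p) (s : ℂ →+* ℂ) (h : MvPolynomial (Fin m) ℂ)
    (hh : ∀ u, ‖τ (coeff u h)‖ ≤ 1) (k : ℕ)
    (hk : ∀ u, ‖τ (s (coeff u h))‖ ≤ 1 ∧ ‖(τ (coeff u h)) ^ p ^ k - τ (s (coeff u h))‖ < 1)
    (t : Fin m → ℂ) (ht : ∀ i, ‖τ (t i)‖ ≤ 1) (hfix : ∀ i, ‖(τ (t i)) ^ p - τ (t i)‖ < 1) :
    rd τ (eval t (map s h)) = (rd τ (eval t h)) ^ p ^ k := by
  have hc : CharP (kk p) p := charP_kk p
  have hx : ExpChar (kk p) p := ExpChar.prime hp.out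
  have h1 : rp τ (map s h) = map (iterateFrobenius (kk p) p k) (rp τ h) := by
    ext u
    rw [coeff_rp, coeff_map, coeff_map, coeff_rp, iterateFrobenius_def]
    exact (rd_pow_eq τ (hh u) (hk u).1 (hk u).2).symm
  have h2 : (fun i => rd τ (t i)) = fun i => iterateFrobenius (kk p) p k (rd τ (t i)) := by
    funext i
    rw [iterateFrobenius_def]
    have h3 : (rd τ (t i)) ^ p = rd τ (t i) := rd_pow_eq τ (ht i) (ht i) (hfix i)
    have h4 : ∀ j : ℕ, (rd τ (t i)) ^ p ^ j = rd τ (t i) := by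
      intro j
      induction j with
      | zero => rw [pow_zero, pow_one]
      | succ j ih => rw [pow_succ, pow_mul, ih, h3]
    exact (h4 k).symm
  have h5 := (rd_eval τ (map s h) (fun u => by rw [coeff_map]; exact (hk u).1) t ht).2
  have h6 := (rd_eval τ h hh t ht).2
  have h7 : eval (fun i => iterateFrobenius (kk p) p k (rd τ (t i))) (map (iterateFrobenius (kk p) p k) (rp τ h)) =
      iterateFrobenius (kk p) p k (eval (fun i => rd τ (t i)) (rp τ h)) := by
    rw [eval_map]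
    exact (eval₂_comp_left (iterateFrobenius (kk p) p k) (RingHom.id _) _ _).symm
  rw [h5, h6, h1]
  refine (congrArg (fun z => eval z (map (iterateFrobenius (kk p) p k) (rp τ h))) h2).trans (h7.trans ?_)
  rw [iterateFrobenius_def]

/-- **TR-R**: no critical residue at a point whose residue is fixed by Frobenius -/
theorem ram_unit (A : Subfield ℂ) (hA : ∀ z, z ∈ A ↔ IsAlgebraic ℚ z) (s : ℂ ≃+* ℂ) {m : ℕ}
    (B : Set (MvPolynomial (Fin m) ℂ)) (hB : ∀ g ∈ B, ∀ u, coeff u g ∈ A) (D : Finset (MvPolynomial (Fin m) ℂ))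
    (hD : ∀ g ∈ D, ∀ u, coeff u g ∈ A) (F : Fin m → MvPolynomial (Fin m) ℂ) (hF : ∀ i u, coeff u (F i) ∈ A)
    (hs : SFree (s : ℂ →+* ℂ) F B ↑D) : ∃ Z : Finset ℂ, (∀ z ∈ Z, z ∈ A) ∧
      ∀ (p : ℕ) [Fact p.Prime] (τ : ℂ →+* PadicAlgCl p), Un τ Z → FrobPlus (s : ℂ →+* ℂ) τ Z →
        ∀ t : Fin m → ℂ, (∀ g ∈ B, eval t g = 0) → (∀ i, ‖τ (t i)‖ ≤ 1) → (∃ g ∈ D, ‖τ (eval t g)‖ = 1) →
          (∀ i, ‖(τ (t i)) ^ p - τ (t i)‖ < 1) → ‖τ (jac F t).det‖ = 1 := by
  classical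
  obtain ⟨k, C, hCalg, hcov, hmov⟩ := hs
  set sh : ℂ →+* ℂ := (s : ℂ →+* ℂ) with hsh
  -- `A` is algebraically closed in `ℂ` and stable under `s`
  have hAalg : ∀ z : ℂ, IsAlgebraic A z → z ∈ A := by
    intro z hz
    rw [hA]
    have : Algebra.IsAlgebraic ℚ A := ⟨fun a => by
      have h1 : IsAlgebraic ℚ (a : ℂ) := (hA a).1 a.2
      obtain ⟨P, hP0, hP⟩ := h1
      refine ⟨P, hP0, ?_⟩
      have h2 : (A.subtype : A →+* ℂ) (Polynomial.aeval a P) = Polynomial.aeval (a : ℂ) P := by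
        rw [Polynomial.aeval_def, Polynomial.aeval_def, Polynomial.hom_eval₂]
        congr 1
      rw [hP] at h2
      exact A.subtype.injective (by rw [h2, map_zero])⟩
    exact hz.restrictScalars ℚ
  have hsA : ∀ (j : ℕ) (z : ℂ), IsAlgebraic ℚ z → IsAlgebraic ℚ ((sh ^ j) z) := by
    intro j z hz
    obtain ⟨P, hP0, hP⟩ := hz
    refine ⟨P, hP0, ?_⟩
    have h2 : (sh ^ j) (Polynomial.aeval z P) = Polynomial.aeval ((sh ^ j) z) P := by
      rw [Polynomial.aeval_def, Polynomial.aeval_def, Polynomial.hom_eval₂]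
      congr 1
      exact Subsingleton.elim _ _
    rw [← h2, hP, map_zero]
  -- the determinant
  obtain ⟨J, hJ⟩ := Pool.Agent.Helper26.OS.exists_jacPoly98 A F hF
  set dj : MvPolynomial (Fin m) ℂ := map A.subtype J with hdj
  have hdjev : ∀ t, eval t dj = (jac F t).det := fun t => (hJ t).symm
  have hdjA : ∀ u, coeff u dj ∈ A := by
    intro u
    rw [hdj, coeff_map]
    exact (coeff u J).2
  -- step 1
  have step1 : ∀ i : Fin k, ∀ g ∈ D, ∃ (Q : Finset (MvPolynomial (Fin m) ℂ)) (Z : Finset ℂ),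
      (∀ q ∈ Q, q ∈ B ∪ {q | ∃ h ∈ C i, ∃ j : ℕ, q = map (sh ^ j) h}) ∧ (∀ z ∈ Z, z ∈ A) ∧
      ∀ (p : ℕ) [Fact p.Prime] (τ : ℂ →+* PadicAlgCl p), Un τ Z → ∀ y : Fin m → ℂ, (∀ v, ‖τ (y v)‖ ≤ 1) →
        (∀ q ∈ Q, ‖τ (eval y q)‖ < 1) → ‖τ (eval y g)‖ < 1 := by
    intro i g hg
    refine red_imp A hAalg _ ?_ g (hD g hg) ?_
    · rintro q (hq | ⟨h, hh, j, rfl⟩) u
      · exact hB q hq u
      · rw [coeff_map, hA]
        exact hsA j _ (hCalg i h hh u)
    · intro y hy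
      by_contra hne
      obtain ⟨j, h, hh, hne2⟩ := hmov i y ⟨fun q hq => hy q (Or.inl hq), g, hg, hne⟩
      exact hne2 (hy _ (Or.inr ⟨h, hh, j, rfl⟩))
  choose! Q1 Z1 hQ1 hZ1 hR1 using step1
  -- the finitely many equations
  have step2 : ∀ i : Fin k, ∃ H : Finset (MvPolynomial (Fin m) ℂ), (∀ h ∈ H, h ∈ C i) ∧
      ∀ g ∈ D, ∀ q ∈ Q1 i g, q ∈ B ∨ ∃ h ∈ H, ∃ j : ℕ, q = map (sh ^ j) h := by
    intro i
    have h1 : ∀ g ∈ D, ∀ q ∈ Q1 i g, q ∉ B → ∃ h ∈ C i, ∃ j : ℕ, q = map (sh ^ j) h := by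
      intro g hg q hq hqB
      rcases hQ1 i g hg q hq with h | h
      · exact absurd h hqB
      · exact h
    have h2 : ∀ q : MvPolynomial (Fin m) ℂ, ∃ h : MvPolynomial (Fin m) ℂ, (∃ h ∈ C i, ∃ j : ℕ, q = map (sh ^ j) h) →
        h ∈ C i ∧ ∃ j : ℕ, q = map (sh ^ j) h := by
      intro q
      by_cases hq : ∃ h ∈ C i, ∃ j : ℕ, q = map (sh ^ j) h
      · obtain ⟨h, hh, hj⟩ := hq
        exact ⟨h, fun _ => ⟨hh, hj⟩⟩
      · exact ⟨0, fun h => absurd h hq⟩
    choose hf hhf using h2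
    refine ⟨((D.biUnion fun g => Q1 i g).filter fun q => ∃ h ∈ C i, ∃ j : ℕ, q = map (sh ^ j) h).image hf, ?_, ?_⟩
    · intro h hh
      obtain ⟨q, hq, rfl⟩ := Finset.mem_image.1 hh
      exact (hhf q (Finset.mem_filter.1 hq).2).1
    · intro g hg q hq
      by_cases hqB : q ∈ B
      · exact Or.inl hqB
      · have h3 := h1 g hg q hq hqB
        refine Or.inr ⟨hf q, Finset.mem_image.2 ⟨q, Finset.mem_filter.2 ⟨Finset.mem_biUnion.2 ⟨g, hg, hq⟩, h3⟩, rfl⟩, ?_⟩
        exact (hhf q h3).2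
  choose H hHC hH using step2
  -- step 3
  have step3 : ∀ η ∈ Fintype.piFinset H, ∀ g ∈ D, ∃ (Q : Finset (MvPolynomial (Fin m) ℂ)) (Z : Finset ℂ),
      (∀ q ∈ Q, q ∈ B ∪ {dj}) ∧ (∀ z ∈ Z, z ∈ A) ∧
      ∀ (p : ℕ) [Fact p.Prime] (τ : ℂ →+* PadicAlgCl p), Un τ Z → ∀ y : Fin m → ℂ, (∀ v, ‖τ (y v)‖ ≤ 1) →
        (∀ q ∈ Q, ‖τ (eval y q)‖ < 1) → ‖τ (eval y (g * ∏ i, η i))‖ < 1 := by
    intro η hη g hg
    rw [Fintype.mem_piFinset] at hη
    have hint : ∀ a b : MvPolynomial (Fin m) ℂ, (∀ u, coeff u a ∈ A) → (∀ u, coeff u b ∈ A) → ∀ u, coeff u (a * b) ∈ A := by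
      intro a b ha hb u
      rw [coeff_mul]
      exact sum_mem fun x _ => mul_mem (ha _) (hb _)
    refine red_imp A hAalg _ ?_ _ ?_ ?_
    · rintro q (hq | hq) u
      · exact hB q hq u
      · rw [Set.mem_singleton_iff.1 hq]
        exact hdjA u
    · refine hint _ _ (hD g hg) ?_
      refine Finset.prod_induction _ (fun a => ∀ u, coeff u a ∈ A) hint ?_ ?_
      · intro u
        rw [coeff_one]
        split_ifs
        · exact A.one_mem
        · exact A.zero_mem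
      · intro i _ u
        rw [hA]
        exact hCalg i _ (hHC i _ (hη i)) u
    · intro y hy
      rw [map_mul, map_prod]
      by_contra hne
      have h1 : eval y g ≠ 0 := left_ne_zero_of_mul hne
      have h2 : ∏ i, eval y (η i) ≠ 0 := right_ne_zero_of_mul hne
      obtain ⟨i, hi⟩ := hcov y ⟨fun q hq => hy q (Or.inl hq), g, hg, h1⟩ (by
        rw [← hdjev]
        exact hy dj (Or.inr rfl))
      exact (Finset.prod_ne_zero_iff.1 h2) i (Finset.mem_univ i) (hi _ (hHC i _ (hη i)))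
  choose! Q3 Z3 hQ3 hZ3 hR3 using step3
  -- the set of numbers
  refine ⟨(Finset.univ.biUnion fun i => D.biUnion fun g => Z1 i g) ∪
    ((Fintype.piFinset H).biUnion fun η => D.biUnion fun g => Z3 η g) ∪
    (dj.support.image fun u => coeff u dj) ∪
    ({0} ∪ Finset.univ.biUnion fun i => (H i).biUnion fun h => h.support.image fun u => coeff u h), ?_, ?_⟩
  · intro z hz
    simp only [Finset.mem_union, Finset.mem_biUnion, Finset.mem_univ, true_and, Finset.mem_image,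
      Finset.mem_singleton] at hz
    rcases hz with ((⟨i, g, hg, hz⟩ | ⟨η, hη, g, hg, hz⟩) | ⟨u, -, rfl⟩) | (rfl | ⟨i, h, hh, u, -, rfl⟩)
    · exact hZ1 i g hg z hz
    · exact hZ3 η hη g hg z hz
    · exact hdjA u
    · exact A.zero_mem
    · rw [hA]
      exact hCalg i h (hHC i h hh) u
  · intro p hp τ hUn hFr t htB ht ⟨g, hgD, hg1⟩ hfix
    have hU1 : ∀ i, Un τ (Z1 i g) := fun i z hz => hUn z (by
      simp only [Finset.mem_union, Finset.mem_biUnion, Finset.mem_univ, true_and]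
      exact Or.inl (Or.inl (Or.inl ⟨i, g, hgD, hz⟩)))
    have hU3 : ∀ η ∈ Fintype.piFinset H, Un τ (Z3 η g) := fun η hη z hz => hUn z (by
      simp only [Finset.mem_union, Finset.mem_biUnion]
      exact Or.inl (Or.inl (Or.inr ⟨η, hη, g, hgD, hz⟩)))
    have hdint : ∀ u, ‖τ (coeff u dj)‖ ≤ 1 := by
      intro u
      by_cases hu : u ∈ dj.support
      · exact (hUn _ (by
          simp only [Finset.mem_union, Finset.mem_image]
          exact Or.inl (Or.inr ⟨u, hu, rfl⟩))).1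
      · rw [mem_support_iff, not_not] at hu
        rw [hu, map_zero, norm_zero]
        exact zero_le_one
    have hHmem : ∀ i, ∀ h ∈ H i, ∀ u, coeff u h ∈ ((Finset.univ.biUnion fun i => D.biUnion fun g => Z1 i g) ∪
        ((Fintype.piFinset H).biUnion fun η => D.biUnion fun g => Z3 η g) ∪
        (dj.support.image fun u => coeff u dj) ∪
        ({0} ∪ Finset.univ.biUnion fun i => (H i).biUnion fun h => h.support.image fun u => coeff u h)) := by
      intro i h hh u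
      by_cases hu : u ∈ h.support
      · simp only [Finset.mem_union, Finset.mem_biUnion, Finset.mem_image, Finset.mem_univ, true_and]
        exact Or.inr (Or.inr ⟨i, h, hh, u, hu, rfl⟩)
      · rw [mem_support_iff, not_not] at hu
        rw [hu]
        simp only [Finset.mem_union, Finset.mem_singleton]
        exact Or.inr (Or.inl trivial)
    have hd1 := (rd_eval τ dj hdint t ht).1
    rw [hdjev] at hd1
    by_contra hne
    have hlt : ‖τ (jac F t).det‖ < 1 := lt_of_le_of_ne hd1 hne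
    -- an index `i` with all `h ∈ H i` reducing to zero
    have hi : ∃ i, ∀ h ∈ H i, ‖τ (eval t h)‖ < 1 := by
      by_contra hcon
      push Not at hcon
      choose η hηH hη1 using hcon
      have hη : η ∈ Fintype.piFinset H := Fintype.mem_piFinset.2 hηH
      have h1 := hR3 η hη g hgD p τ (hU3 η hη) t ht (by
        intro q hq
        rcases hQ3 η hη g hgD q hq with h | h
        · rw [htB q h, map_zero, norm_zero]
          exact zero_lt_one
        · rw [Set.mem_singleton_iff.1 h, hdjev]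
          exact hlt)
      rw [map_mul, map_mul, norm_mul, hg1, one_mul, map_prod, map_prod, norm_prod] at h1
      have h2 : (1 : ℝ) ≤ ∏ i, ‖τ (eval t (η i))‖ := by
        calc (1 : ℝ) = ∏ _i : Fin k, (1 : ℝ) := by rw [Finset.prod_const_one]
          _ ≤ _ := Finset.prod_le_prod (fun _ _ => zero_le_one) fun i _ => hη1 i
      exact absurd h1 (not_lt.2 h2)
    obtain ⟨i, hi⟩ := hi
    have h3 := hR1 i g hgD p τ (hU1 i) t ht (by
      intro q hq
      rcases hH i g hgD q hq with h | ⟨h, hh, j, rfl⟩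
      · rw [htB q h, map_zero, norm_zero]
        exact zero_lt_one
      · obtain ⟨l, hl⟩ := hFr j
        have h4 := rd_conj τ (sh ^ j) h (fun u => (hUn _ (hHmem i h hh u)).1) l
          (fun u => hl _ (hHmem i h hh u)) t ht hfix
        have h5 : rd τ (eval t h) = 0 :=
          (rd_eq_zero τ (rd_eval τ h (fun u => (hUn _ (hHmem i h hh u)).1) t ht).1).2 (hi h hh)
        rw [h5, zero_pow (pow_ne_zero _ hp.out.ne_zero)] at h4
        refine (rd_eq_zero τ ?_).1 h4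
        exact (rd_eval τ (map (sh ^ j) h) (fun u => by
          rw [coeff_map]
          exact (hl _ (hHmem i h hh u)).1) t ht).1)
    rw [hg1] at h3
    exact lt_irrefl _ h3

end

end Pool.Agent.Helper86.TR
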